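import Pool.Agent.Lib.MP_b5021c_nt.IfaceE6

/-!
# Board b5, row E6_MED: medium rays with a drop (`MedS`)
-/

namespace Pool.Agent.B5.E664

open scoped LaurentPolynomial
open Polynomial
open Pool.Agent.MP_b5021c_nt (Eis nz)
open Pool.Agent.MP_b5021c_nt.Ire (bc cast_inj wd_unit)
open Pool.Agent.B5.H25.Bch (bcR bcR_inj bc_co bcR_C bcR_T supp_bc classP_bc emb_comp)

/-! ## Small tools -/

/-- The rank of the kernel of a functional with the value one. -/
theorem fr_ker {L : Type} [AddCommGroup L] [Module.Free ℤ L] [Module.Finite ℤ L] (k : L →+ ℤ)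
    (S : L) (h : k S = 1) : Module.finrank ℤ (Ker k) + 1 = Module.finrank ℤ L := by
  have h1 := Submodule.finrank_quotient_add_finrank (LinearMap.ker k.toIntLinearMap)
  have h2 : Function.Surjective k.toIntLinearMap := by
    intro m
    refine ⟨m • S, ?_⟩
    change k (m • S) = m
    rw [map_zsmul, h]
    simp
  have h3 := (k.toIntLinearMap.quotKerEquivOfSurjective h2).finrank_eq
  rw [Module.finrank_self] at h3
  change Module.finrank ℤ (LinearMap.ker k.toIntLinearMap) + 1 = _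
  omega

/-- The unit `T n`. -/
noncomputable def uT {O : Type} [CommRing O] (n : ℤ) : (RO O)ˣ where
  val := LaurentPolynomial.T n
  inv := LaurentPolynomial.T (-n)
  val_inv := by rw [← LaurentPolynomial.T_add, add_neg_cancel, LaurentPolynomial.T_zero]
  inv_val := by rw [← LaurentPolynomial.T_add, neg_add_cancel, LaurentPolynomial.T_zero]

/-- The unit `C v`. -/
noncomputable def uC {O : Type} [CommRing O] (v : Oˣ) : (RO O)ˣ :=
  Units.map (LaurentPolynomial.C : O →+* RO O).toMonoidHom v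

theorem uT_val {O : Type} [CommRing O] (n : ℤ) :
    ((uT n : (RO O)ˣ) : RO O) = LaurentPolynomial.T n := rfl

theorem uC_val {O : Type} [CommRing O] (v : Oˣ) :
    ((uC v : (RO O)ˣ) : RO O) = LaurentPolynomial.C (v : O) := rfl

theorem bcU_val (e : (RO ℤ)ˣ) : (bcU e : RO Eis) = bcR (e : RO ℤ) := rfl

/-- A unit between real coefficients is real. -/
theorem unit_desc (a b : RO ℤ) (hb : b ≠ 0) (u : (RO Eis)ˣ)
    (h : bcR a = (u : RO Eis) * bcR b) : ∃ v : (RO ℤ)ˣ, a = (v : RO ℤ) * b := by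
  obtain ⟨n, g, hg0, hg, hd⟩ := wd_unit u.isUnit
  rw [Polynomial.eq_C_of_natDegree_eq_zero hd, Polynomial.toLaurent_C] at hg
  have hunit : IsUnit (g.coeff 0) := by
    have h1 := (u.isUnit).map (LaurentPolynomial.eval₂ (RingHom.id Eis) (1 : Eisˣ))
    rw [hg, map_mul, LaurentPolynomial.eval₂_T, LaurentPolynomial.eval₂_C, one_zpow, Units.val_one,
      one_mul] at h1
    exact h1
  obtain ⟨j, hj⟩ : ∃ j, b.coeff j ≠ 0 := by
    by_contra hc
    push Not at hc
    apply hb
    apply AddMonoidAlgebra.ext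
    apply Finsupp.ext
    intro j
    rw [hc j]
    rfl
  have h2 : bcR (LaurentPolynomial.T (-n) * a) = LaurentPolynomial.C (g.coeff 0) * bcR b := by
    rw [map_mul, h, hg, bcR_T]
    have h3 : (LaurentPolynomial.T (-n) : RO Eis) * LaurentPolynomial.T n = 1 := by
      rw [← LaurentPolynomial.T_add, neg_add_cancel, LaurentPolynomial.T_zero]
    linear_combination (LaurentPolynomial.C (g.coeff 0) * bcR b) * h3
  have hbc : ∀ p : RO ℤ, (bcR p).coeff j = ((p.coeff j : ℤ) : Eis) := by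
    intro p
    simp [bcR]
  have h4 : (((LaurentPolynomial.T (-n) * a).coeff j : ℤ) : Eis) =
      g.coeff 0 * ((b.coeff j : ℤ) : Eis) := by
    rw [← hbc, h2, ← LaurentPolynomial.smul_eq_C_mul, ← hbc]
    rfl
  have him : (g.coeff 0).im = 0 := by
    have h5 := congrArg QuadraticAlgebra.im h4
    simp at h5
    exact h5.resolve_right hj
  set r : ℤ := (g.coeff 0).re with hr
  have hgr : g.coeff 0 = ((r : ℤ) : Eis) := by
    apply QuadraticAlgebra.ext
    · simp [hr]
    · simp [him]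
  have hru : IsUnit r := by
    rw [Eis.isUnit_iff, Eis.norm_eq, him] at hunit
    have h6 : r * r = 1 := by
      have h7 : r ^ 2 - r * 0 + 0 ^ 2 = 1 := hunit
      linear_combination h7
    exact IsUnit.of_mul_eq_one r h6
  obtain ⟨rv, hrv⟩ := hru
  refine ⟨uT n * uC rv, ?_⟩
  apply bcR_inj
  rw [h, hg, hgr, map_mul, Units.val_mul, map_mul, uT_val, uC_val, bcR_T, bcR_C, hrv]

/-- The primitive sixth root of unity. -/
def w6 : Eisˣ := ⟨(⟨1, 1⟩ : Eis), (⟨0, -1⟩ : Eis), by decide, by decide⟩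

theorem w6_norm : ‖Eis.emb (w6 : Eis)‖ = 1 := Eis.norm_emb_unit (Units.isUnit _)

theorem w6_re : (Eis.emb (w6 : Eis)).re = 1 / 2 := by
  change (Eis.emb (⟨1, 1⟩ : Eis)).re = 1 / 2
  rw [Eis.emb_re]
  norm_num

theorem w6_sq : (w6 : Eis) * (w6 : Eis) + 1 = (w6 : Eis) := by
  change (⟨1, 1⟩ : Eis) * (⟨1, 1⟩ : Eis) + 1 = (⟨1, 1⟩ : Eis)
  decide

theorem w6_ne : (w6 : Eis) ≠ 1 := by
  change (⟨1, 1⟩ : Eis) ≠ 1
  decide

theorem uw_sq : ((uC w6 : (RO Eis)ˣ) : RO Eis) * ((uC w6 : (RO Eis)ˣ) : RO Eis) + 1 =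
    ((uC w6 : (RO Eis)ˣ) : RO Eis) := by
  rw [uC_val, ← map_one LaurentPolynomial.C, ← map_mul, ← map_add, w6_sq]

theorem C_ne {O : Type} [CommRing O] {a : O} (ha : a ≠ 1) :
    (LaurentPolynomial.C a : RO O) ≠ 1 := by
  intro h
  apply ha
  have h2 : (LaurentPolynomial.C a : RO O) = LaurentPolynomial.C 1 := by rw [h, map_one]
  rw [← Polynomial.toLaurent_C, ← Polynomial.toLaurent_C] at h2
  exact Polynomial.C_injective (Polynomial.toLaurent_injective h2)

theorem uw_ne : (uC w6 : (RO Eis)ˣ) ≠ 1 := by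
  intro h
  exact C_ne w6_ne (by rw [← uC_val, h, Units.val_one])

theorem neg_CT_ne (a : ℤ) :
    (-(LaurentPolynomial.C a * LaurentPolynomial.T (-1)) : RO ℤ) ≠ 1 := by
  intro h
  rw [← LaurentPolynomial.single_eq_C_mul_T] at h
  have h1 := congrArg (fun p : RO ℤ => p.coeff 0) h
  have h2 : (AddMonoidAlgebra.single (-1 : ℤ) a : RO ℤ).coeff 0 = 0 :=
    Finsupp.single_eq_of_ne (by norm_num)
  have h3 : (1 : RO ℤ).coeff 0 = 1 := by
    rw [← LaurentPolynomial.T_zero, LaurentPolynomial.T_apply]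
    rfl
  have h4 : (-(AddMonoidAlgebra.single (-1 : ℤ) a : RO ℤ)).coeff 0 =
      -((AddMonoidAlgebra.single (-1 : ℤ) a : RO ℤ).coeff 0) := rfl
  change (-(AddMonoidAlgebra.single (-1 : ℤ) a : RO ℤ)).coeff 0 = (1 : RO ℤ).coeff 0 at h1
  rw [h4, h2, h3] at h1
  norm_num at h1

/-! ## Numbers -/

theorem num2 {θ : ℝ} (hθ : 10 ^ 13 ≤ θ) : 0 < θ ∧ 0 < θ⁻¹ ∧ θ⁻¹ ≤ 1 / 10 ^ 13 ∧ 1 / θ = θ⁻¹ := by
  have h0 : (0 : ℝ) < θ := by linarith [show (0 : ℝ) < 10 ^ 13 by norm_num]
  refine ⟨h0, inv_pos.mpr h0, ?_, one_div θ⟩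
  rw [inv_eq_one_div]
  exact one_div_le_one_div_of_le (by norm_num) hθ

/-! ## The double closing T2 -/

/-- The norm of the residue. -/
theorem norm_c {θ x : ℝ} {T c : ℂ} (hθ : 0 < θ) (hx : 0 ≤ x) (hT : ‖T‖ = θ)
    (h : c * (starRingEnd ℂ) T = (θ : ℂ) * (x : ℂ)) : ‖c‖ = x := by
  have h1 := congrArg norm h
  rw [norm_mul, norm_mul, RCLike.norm_conj, hT, Complex.norm_real, Complex.norm_real,
    Real.norm_of_nonneg hθ.le, Real.norm_of_nonneg hx, mul_comm] at h1
  exact mul_left_cancel₀ hθ.ne' h1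

/-- T2 of full rank. -/
theorem t2 (hT2c : T2cS) (hBcd : BcdS) {P L : Type} [Fintype P] [DecidableEq P] [AddCommGroup L]
    [Module.Free ℤ L] [Module.Finite ℤ L] (phi : L →+ (P → ℤ)) (D : AO ℤ L) (S S1 : L) (θ E : ℝ)
    (e0 e1 : (RO ℤ)ˣ) (x : ℝ) (n : ℤ) (q f : ℤ[X]) (s r : ℂ[X]) (T c : ℂ)
    (hyp : HypR θ E) (hFP : FP phi D) (h4 : 4 ≤ Module.finrank ℤ L) (hM : Mut D S S1 e0 e1)
    (hdis : ∀ i, phi S i = 0 ∨ phi S1 i = 0)
    (hMd : Md θ (D.coeff 0) (D.coeff S) e0 x n q f s r T c) (hx1 : 995 / 1000 ≤ x)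
    (hx2 : x ≤ 99 / 50) (Y : Dp phi S S1)
    (hrk : rk (supp (dc Y (bcU e0 * uC w6) (bcU e1 * uC w6) (bc D))) + 2 = Module.finrank ℤ L) :
    (Module.finrank ℤ L : ℝ) ≤ 2 * (θ - 1 / θ) := by
  obtain ⟨hθ0, hi0, hi1, hdiv⟩ := num2 hyp.big
  have hθb := hyp.big
  obtain ⟨bRay, bFP, -, bUS, bMut, -, -, -, -, -, -⟩ := hBcd P L phi D
  obtain ⟨hQ, hF, hPD, hcT, -, -, -, -⟩ := hMd
  have hFP' := bFP hFP (by omega)
  have hM' := (bMut S S1 e0 e1).mpr hM
  have hc : ‖c‖ = x := norm_c hθ0 (by linarith) hPD.nT hcT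
  -- the port of the second closing
  have hp1 : phi S1 Y.i1 = 1 := by
    have h1 := Y.hk Y.T
    rw [Y.h1, Y.eT] at h1
    exact h1.symm
  have h01 : phi S Y.i1 = 0 := by
    rcases hdis Y.i1 with h | h
    · exact h
    · rw [hp1] at h; exact absurd h one_ne_zero
  have hk1 : Y.k1 = co (phO phi S Y.i0) Y.i1 := by
    ext a
    rw [Y.hk]
    change phi (a : L) Y.i1 = if phi S Y.i1 = 0 then phi (a : L) Y.i1 else 0
    rw [if_pos h01]
  have hfc : ‖Eis.emb ((f.map (Int.castRingHom Eis)).coeff 0)‖ = 1 ∨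
      2 ≤ ‖Eis.emb ((f.map (Int.castRingHom Eis)).coeff 0)‖ := by
    have h1 : (f.map (Int.castRingHom Eis)).coeff 0 ≠ 0 := hPD.f0
    rw [Polynomial.coeff_map, eq_intCast] at h1 ⊢
    have h2 : ‖Eis.emb ((f.coeff 0 : ℤ) : Eis)‖ = |((f.coeff 0 : ℤ) : ℝ)| := by
      rw [map_intCast, Complex.norm_intCast]
    rw [h2]
    have h3 : f.coeff 0 ≠ 0 := by
      intro h0
      rw [h0] at h1
      exact h1 (by simp)
    have h4 : 1 ≤ |f.coeff 0| := Int.one_le_abs h3
    rcases eq_or_lt_of_le h4 with h5 | h5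
    · left
      rw [← Int.cast_abs, ← h5, Int.cast_one]
    · right
      rw [← Int.cast_abs]
      exact_mod_cast h5
  have hQ' : (bc D).coeff 0 = LaurentPolynomial.T n * toLaurent (q.map (Int.castRingHom Eis)) := by
    rw [bc_co, hQ, map_mul, bcR_T, Pool.Agent.B5.H25.Bch.bcR_L]
  have hF' : (bcU e0 : RO Eis) * (bc D).coeff S =
      LaurentPolynomial.T n * toLaurent (X * f.map (Int.castRingHom Eis)) := by
    rw [bc_co, bcU_val, ← map_mul, hF, map_mul, bcR_T, Pool.Agent.B5.H25.Bch.bcR_L,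
      Polynomial.map_mul, Polynomial.map_X]
  have key := hT2c P L phi (bc D) θ S S1 (bcU e0) (bcU e1) (bcU e0 * uC w6) (bcU e1 * uC w6)
    (w6 : Eis) n (q.map (Int.castRingHom Eis)) (f.map (Int.castRingHom Eis)) s r T c Y.i0 Y.i1
    Y.h0 Y.T Y.k1 Y.h1 hFP' h4 (by linarith [show (10 : ℝ) ^ 6 ≤ 10 ^ 13 by norm_num])
    hM'.r0 hM'.r1 hM'.m0 hM'.m1 Y.eT hk1
    (by rw [Units.val_mul, uC_val, mul_comm]) (by rw [Units.val_mul, uC_val, mul_comm])
    w6_norm w6_re hQ' hF' hPD (by rw [hc]; exact hx2) hfc hrk.symm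
  rw [hdiv]
  have h6 : (10 : ℝ) ^ 13 = 10000000000000 := by norm_num
  rw [h6] at hi1 hθb
  rcases key with h | ⟨θ'', h1, h2⟩
  · exact h
  · have hre : ((1 + Eis.emb (w6 : Eis)) * (c * (starRingEnd ℂ) T)).re = θ * (3 / 2 * x) := by
      rw [hcT]
      simp only [Complex.mul_re, Complex.add_re, Complex.one_re, Complex.add_im, Complex.one_im,
        Complex.ofReal_re, Complex.ofReal_im, Complex.mul_im, w6_re]
      ring
    rw [hre, mul_div_cancel_left₀ _ hθ0.ne', div_eq_mul_inv 35 θ] at h1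
    rcases le_or_gt (θ / 3) θ'' with h3 | h3
    · have h5 := h2 _ (hyp.cx θ'' h3)
      linarith
    · have h5 := h2 _ (hyp.c3 θ'')
      linarith

/-! ## The window -/

/-- An integer of modulus one. -/
theorem int_unit {a : ℤ} (h : ‖Eis.emb ((a : ℤ) : Eis)‖ = 1) : a = 1 ∨ a = -1 := by
  rw [map_intCast, Complex.norm_intCast] at h
  have h1 : |a| = 1 := by exact_mod_cast h
  exact (abs_eq zero_le_one).mp h1

theorem typA_classV {N' : ℝ} {Q V : RO ℤ} (h : TypA N' Q V) : ClassV N' V := by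
  obtain ⟨n, q, e, -, hV, -, he, hz⟩ := h
  have h0 : e.coeff 0 ≠ 0 := by
    intro h0
    have := hz 0 (by simp)
    rw [← Polynomial.coeff_zero_eq_eval_zero, Polynomial.coeff_map, h0, map_zero] at this
    exact this rfl
  refine ⟨?_, n + 1, e, hV, he, hz⟩
  rw [← he]
  exact Coef.one_le _ h0

/-- (E6_MED) -/
theorem med (hZb : Zb5S) (hZc : Zc5S) (hAlp : AlpS) (hT2f : T2fS) (hT2c : T2cS) (hPae : PaeS)
    (hVs2 : Vs2S) (hOna : OnaS) (hWn2 : Wn2S) (hMfc : MfcS) (hMco : McoS) (hBcd : BcdS) :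
    MedS := by
  intro P L _ _ _ _ _ phi D eta S θ E g x n q f s r T c hyp hFP h4 hcls hRay hMd hrk hg hfull hS1
    hS2 hmut
  obtain ⟨hθ0, hi0, hi1, hdiv⟩ := num2 hyp.big
  have hθb := hyp.big
  have hθ6 : (1000000 : ℝ) ≤ θ := by linarith [show (1000000 : ℝ) ≤ 10 ^ 13 by norm_num]
  have hE0 := hyp.E0
  have hinj := hFP.dd.inj
  have hbin := hFP.dd.bin
  obtain ⟨S1, hM⟩ := hS1
  obtain ⟨hdis, -, -, ⟨Y⟩⟩ := hMco ℤ P L phi D S S1 (eta S) (eta S1) hinj hbin hM
  obtain ⟨bRay, bFP, -, bUS, bMut, bcl, bdc, -, bRl, bRlU, -⟩ := hBcd P L phi D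
  have hFP' := bFP hFP (by omega)
  have hcar : Car (D.coeff 0) ((eta S : RO ℤ) * D.coeff S) := by
    intro z a b ha hb
    have h1 := hMfc ℤ P L phi D S S1 (eta S) (eta S1) hFP.dd (by omega) hM z a b ha hb
    intro h2
    apply h1
    rw [map_add] at h2
    linear_combination h2
  obtain ⟨hu, hnz, hcase⟩ := hZc θ _ _ _ x n q f s r T c hθ6 hMd hcar
  rcases hcase with ⟨hx1, hGp⟩ | ⟨hx11, sg, u, N, hTs, hf0, hqu, hu0, huz, hNhi, hNx, hA, hV⟩
  · -- the load of type B pays for a drop one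
    by_cases hg1 : g ≤ 1
    · exact hAlp P L phi D S θ E (eta S) g x n q f s r T c hyp hFP h4 hcls hRay hMd hrk hg1
        (fun _ => hGp) (fun _ => hfull)
    · rcases le_or_gt x (99 / 50) with hx2 | hx2
      · -- T2
        obtain ⟨R1, R2, hM1, hM2, hs2, hs1⟩ := hS2 (by omega)
        obtain ⟨hdis1, -, -, ⟨Z⟩⟩ := hMco ℤ P L phi D S R1 (eta S) (eta R1) hinj hbin hM1
        have hr := hT2f Eis P L phi (bc D) S R1 R2 (bcU (eta S)) (bcU (eta R1)) (bcU (eta R2))
          (uC w6) (uC w6) hFP'.dd ((bMut _ _ _ _).mpr hM1) ((bMut _ _ _ _).mpr hM2)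
          (by rw [bUS]; exact hs2) (by rw [bUS]; exact hs1) uw_ne uw_ne Z
        have h1 := t2 hT2c hBcd phi D S R1 θ E (eta S) (eta R1) x n q f s r T c hyp hFP h4 hM1
          hdis1 hMd (by linarith) hx2 Z hr
        linarith
      · -- the pair
        obtain ⟨-, -, hb2, -⟩ := hZb θ _ _ _ x n q f s r T c hθ6 hMd
        obtain ⟨e2, hadj, hmn, hG2⟩ := hb2 hx2.le bcR rfl
        have hG1 : Gp θ (θ - 988 / 1000) (bcR (D.coeff 0)) (bcR (D.coeff S)) (bcU (eta S)) := by
          obtain ⟨θ', h1, h2, h3⟩ := hGp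
          refine ⟨θ', h1, h2.trans ?_, ?_⟩
          · have : 0 ≤ 9 / (1000 * θ) := by positivity
            linarith
          · have h5 := classP_bc h3
            rw [map_add, map_mul] at h5
            exact h5
        have hne : e2 ≠ bcU (eta S) := by
          intro he
          obtain ⟨w, hw1, hw2, hw3⟩ := hadj
          rw [he] at hw1
          have h5 : LaurentPolynomial.C w = (1 : RO Eis) := by
            have h6 : ((bcU (eta S) : (RO Eis)ˣ) : RO Eis) =
              LaurentPolynomial.C w * ((bcU (eta S) : (RO Eis)ˣ) : RO Eis) := hw1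
            have h7 := (bcU (eta S)).isUnit.mul_right_cancel
              (show 1 * ((bcU (eta S) : (RO Eis)ˣ) : RO Eis) =
                LaurentPolynomial.C w * ((bcU (eta S) : (RO Eis)ˣ) : RO Eis) by
                rw [one_mul]; exact h6)
            exact h7.symm
          have h8 : w ≠ 1 := by
            intro hw
            rw [hw, map_one] at hw3
            norm_num at hw3
          exact C_ne h8 h5
        have key := hPae P L phi (bc D) S Y.i0 Y.h0 (bcU (eta S)) e2 θ hFP' h4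
          ((bRay S).mpr hRay) (by linarith [show (10 : ℝ) ^ 10 ≤ 10 ^ 13 by norm_num])
          (by rw [bc_co]; exact classP_bc hcls) hadj (by rw [bc_co, bc_co]; exact hmn)
          (by rw [bc_co, bc_co]; exact hG1) (by rw [bc_co, bc_co]; exact hG2)
          (Or.inr (hfull e2 hne Y.i0 Y.h0)) hyp.cx
        rw [hdiv]
        have h6 : (10 : ℝ) ^ 13 = 10000000000000 := by norm_num
        rw [h6] at hi1
        linarith
  · -- the window
    have hMd' := hMd
    obtain ⟨hQ, hF, hPD, hcT, -, -, hx98, -⟩ := hMd'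
    have h6 : (10 : ℝ) ^ 13 = 10000000000000 := by norm_num
    have hθc := hθb
    rw [h6] at hi1 hθc
    have hNx2 := abs_le.mp hNx
    have hxθ : 98 / 100 * θ ≤ x * θ := mul_le_mul_of_nonneg_right hx98 hθ0.le
    have hNlo : 9 / 10 * θ ≤ (N : ℝ) := by linarith
    set eA : (RO ℤ)ˣ := -(uC sg * uT (-1) * eta S) with heAdef
    have heA : (eA : RO ℤ) =
        -(LaurentPolynomial.C (sg : ℤ) * LaurentPolynomial.T (-1) * (eta S : RO ℤ)) := by
      rw [heAdef, Units.val_neg, Units.val_mul, Units.val_mul, uC_val, uT_val]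
    obtain ⟨hcross, htyp⟩ := hA eA heA
    have hne : bcU eA ≠ bcU (eta S) := by
      intro he
      have h1 : bcR (eA : RO ℤ) = bcR (eta S : RO ℤ) := by
        rw [← bcU_val, ← bcU_val, he]
      have h2 := bcR_inj h1
      rw [heA] at h2
      have h3 : (-(LaurentPolynomial.C (sg : ℤ) * LaurentPolynomial.T (-1)) : RO ℤ) = 1 := by
        apply (eta S).isUnit.mul_right_cancel
        rw [one_mul, neg_mul]
        exact h2
      exact neg_CT_ne _ h3
    have hfullA : ∀ (i0 : P) (h : co phi i0 S = 1),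
        Module.finrank ℤ L = rk (supp (cl (co phi i0) S h eA D)) + 1 := by
      intro i0 h
      have h1 := hfull (bcU eA) hne i0 h
      rw [bcl, supp_bc] at h1
      exact h1
    have hdrop : ∀ (i0 : P) (h : co phi i0 S = 1),
        rk (supp (cl (co phi i0) S h (eta S) D)) < Module.finrank ℤ (Ker (co phi i0)) := by
      intro i0 h
      have h1 := hrk i0 h
      have h2 := fr_ker (co phi i0) S h
      omega
    have hv0 : D.coeff 0 + (eta S : RO ℤ) * D.coeff S ≠ 0 := by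
      intro h0
      exact hnz 1 (by rw [h0, map_zero])
    have hN4 : (4 : ℝ) ≤ N := by linarith
    have key := hOna P L phi D S Y.i0 Y.h0 eA (eta S) θ N hFP h4 hRay hθb hcls
      (typA_classV htyp) hNlo (by linarith) (hfullA Y.i0 Y.h0) hv0 hcross (hdrop Y.i0 Y.h0) hyp.v3
    have hKN : (Module.finrank ℤ L : ℝ) ≤ 2 * θ - 1 ∨
        (Module.finrank ℤ L : ℝ) ≤ 2 * (N : ℝ) + 1 := by
      rcases key with h | ⟨c', G, -, -, hG, hGN⟩
      · exact Or.inl h
      · right
        have h1 := hyp.v2 N hN4 P (Ker (co phi Y.i0)) (phO phi S Y.i0) G hG hGN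
        have h2 := fr_ker (co phi Y.i0) S Y.h0
        rw [← h2, Nat.cast_add, Nat.cast_one]
        linarith
    rw [hdiv]
    rcases hKN with hK | hK
    · linarith
    rcases lt_or_ge x (995 / 1000) with hx995 | hx995
    · have h1 : x * θ ≤ 995 / 1000 * θ := mul_le_mul_of_nonneg_right hx995.le hθ0.le
      linarith
    by_cases hr : rk (supp (dc Y (bcU (eta S) * uC w6) (bcU (eta S1) * uC w6) (bc D))) + 2 =
        Module.finrank ℤ L
    · have h1 := t2 hT2c hBcd phi D S S1 θ E (eta S) (eta S1) x n q f s r T c hyp hFP h4 hM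
        hdis hMd hx995 (by linarith) Y hr
      rw [hdiv] at h1
      linarith
    · set sE : Eisˣ := Units.map (Int.castRingHom Eis : ℤ →* Eis) sg with hsE
      have hsEv : (sE : Eis) = ((sg : ℤ) : Eis) := rfl
      set e1' : (RO ℤ)ˣ := uC sg * uT 1 * eta S1 with he1def
      have he1' : (e1' : RO ℤ) =
          LaurentPolynomial.C (sg : ℤ) * LaurentPolynomial.T 1 * (eta S1 : RO ℤ) := by
        rw [he1def, Units.val_mul, Units.val_mul, uC_val, uT_val]
      have hssg : (((sg : ℤ) : Eis)) * ((sg : ℤ) : Eis) = 1 := by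
        rcases Int.units_eq_one_or sg with h | h <;> rw [h] <;> simp
      have q0 : bcU (eta S) * (-(uC sE * uT (-1))) = bcU eA := by
        apply Units.ext
        rw [Units.val_mul, Units.val_neg, Units.val_mul, uC_val, uT_val, bcU_val, bcU_val, heA,
          map_neg, map_mul, map_mul, bcR_C, bcR_T, hsEv]
        ring
      have q1 : bcU (eta S1) * (uC sE * uT 1) = bcU e1' := by
        apply Units.ext
        rw [Units.val_mul, Units.val_mul, uC_val, uT_val, bcU_val, bcU_val, he1',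
          map_mul, map_mul, bcR_C, bcR_T, hsEv]
        ring
      have hv := hVs2 Eis P L phi (bc D) (fun R => bcU (eta R)) S S1 (uC w6)
        (-(uC sE * uT (-1))) (uC sE * uT 1) ((sg : ℤ) : Eis) hFP'.dd (by omega) bRl
        (fun R => bRlU (eta R)) ((bMut _ _ _ _).mpr hM)
        (fun R hR1 hR2 => (bMut _ _ _ _).mpr
          ((hmut R ((bRay R).mp hR1) (by rw [bUS] at hR2; exact hR2)).1))
        (fun R hR1 hR2 => (bMut _ _ _ _).mpr
          ((hmut S1 hM.r1 hM.m0).2 R ((bRay R).mp hR1) (by rw [bUS] at hR2; exact hR2)))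
        uw_sq hssg (by rw [Units.val_neg, Units.val_mul, uC_val, uT_val, hsEv])
        (by rw [Units.val_mul, uC_val, uT_val, hsEv]) Y hr
      obtain ⟨hv1, ⟨x0, -, u0, hx0⟩, -⟩ := hv
      rw [q0, q1, bdc, supp_bc] at hv1
      rw [q0, q1, bdc, bc_co, bc_co] at hx0
      obtain ⟨v, hvv⟩ := unit_desc _ _ hRay.1 u0 hx0
      have hcomp : ∀ p : ℤ[X], (p.map (Int.castRingHom Eis)).map Eis.emb =
          p.map (Int.castRingHom ℂ) := by
        intro p
        rw [Polynomial.map_map]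
        congr 1
        exact RingHom.ext_int _ _
      have hTi : T⁻¹ = ((sg : ℤ) : ℂ) / (θ : ℂ) := by
        rw [hTs]
        rcases Int.units_eq_one_or sg with h | h <;> rw [h] <;> simp [neg_div]
      have hW : WinD phi D S S1 (eta S) (eta S1) θ E n q f u sg N eA := by
        refine ⟨hyp, hFP, h4, hcls, hM, hQ, hF, ⟨hcls.1, ?_, ?_, hf0, ?_, ?_⟩, ?_, hqu, huz, ?_,
          hNhi, hNlo, heA, hcross, hv0, hfullA, hdrop⟩
        · rcases Int.units_eq_one_or sg with h | h <;> rw [h] <;> simp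
        · have h1 := hPD.q0
          rw [Polynomial.coeff_map, eq_intCast] at h1
          exact int_unit h1
        · intro z hz
          rw [← hcomp]
          exact hPD.nz z hz
        · have h1 : T⁻¹ ∈ ((q.map (Int.castRingHom Eis)).map Eis.emb).roots.filter
              (fun x => ‖x‖ < 1) := by
            rw [hPD.root]
            exact Multiset.mem_singleton_self _
          have h2 := (Multiset.mem_filter.mp h1).1
          rw [hcomp, hTi] at h2
          exact (Polynomial.mem_roots'.mp h2).2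
        · rw [hqu, Polynomial.coeff_X_mul, hu0]
        · exact hV (by
            have : (2 : ℝ) ≤ (N : ℝ) := by linarith
            exact_mod_cast this)
      have h1 := hWn2 P L phi D S S1 (eta S) (eta S1) θ E n q f u sg N eA e1' hW he1' Y hv1
        ⟨x0, v, hvv⟩
      rw [hdiv] at h1
      linarith

end Pool.Agent.B5.E664
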